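import Mathlib
import Pool.Agent.H.MP_cd69b0_an.Main

set_option autoImplicit false

open MeasureTheory
open scoped ENNReal

namespace Pool.Agent.Results.MP_cd69b0_an.Iso

def Isomorphic (𝕜 X Y : Type) [RCLike 𝕜] [NormedAddCommGroup X] [NormedSpace 𝕜 X]
    [NormedAddCommGroup Y] [NormedSpace 𝕜 Y] : Prop :=
  Nonempty (X ≃L[𝕜] Y)

def LinfIsoSum (𝕜 X : Type) (E : ℕ → Type) [RCLike 𝕜] [NormedAddCommGroup X] [NormedSpace 𝕜 X]
    [∀ n, NormedAddCommGroup (E n)] [∀ n, NormedSpace 𝕜 (E n)] : Prop :=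
  Isomorphic 𝕜 (Lp X ∞ (volume : Measure unitInterval)) (lp E ∞)

theorem result (𝕜 : Type) [RCLike 𝕜] (r : ℝ≥0∞) [Fact (1 ≤ r)] (hr : r ≠ ⊤) :
    LinfIsoSum 𝕜 (Lp 𝕜 r (volume : Measure unitInterval))
      fun n : ℕ => PiLp r fun _ : Fin (n + 1) => 𝕜 := by
  refine H.MP_cd69b0_an.main hr (ν := fun t : unitInterval => ⌊(t : ℝ)⁻¹⌋₊ - 1) (by fun_prop)
    fun n h => ?_
  have p1 : (0 : ℝ) < n + 1 := by positivity
  have a1 : ((n : ℝ) + 2)⁻¹ < (n + 1 : ℝ)⁻¹ := inv_strictAnti₀ p1 (by linarith)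
  have a2 : (n + 1 : ℝ)⁻¹ ≤ 1 := inv_le_one_of_one_le₀ (by linarith)
  have a3 : (0 : ℝ) < ((n : ℝ) + 2)⁻¹ := by positivity
  rw [measureReal_eq_zero_iff (measure_ne_top _ _)] at h
  have := measure_mono_null (s := Set.Ioc (⟨_, a3.le, a1.le.trans a2⟩ : unitInterval)
    ⟨_, (a3.trans a1).le, a2⟩) (fun t ht => ?_) h
  · rw [unitInterval.volume_Ioc, ENNReal.ofReal_eq_zero] at this
    exact this.not_gt (sub_pos.2 a1)
  · have b1 : ((n : ℝ) + 2)⁻¹ < t := ht.1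
    have b2 : (t : ℝ) ≤ (n + 1 : ℝ)⁻¹ := ht.2
    have : ⌊(t : ℝ)⁻¹⌋₊ = n + 1 := by
      rw [Nat.floor_eq_iff (inv_pos.2 (a3.trans b1)).le]
      push_cast
      exact ⟨(le_inv_comm₀ (a3.trans b1) p1).1 b2, by
        linarith [(inv_lt_comm₀ (by positivity) (a3.trans b1)).1 b1]⟩
    simp [this]

end Pool.Agent.Results.MP_cd69b0_an.Iso
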